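import Pool.Agent.PowQ.Low

/-! # MP_f12281_al: power subgroups of mapping class groups, all surfaces of genus at most two

`Threshold M L`: if the subgroup of `M` generated by the `N`-th powers has infinite index, then
`L` divides `N`; and for `N = L k` it has infinite index if the free Burnside group of rank two and
exponent `k` is infinite. -/

set_option autoImplicit false

open Pool.Agent.PowQ

universe u

theorem Pool.Agent.Results.MP_f12281_al.GenusAtMostTwo.result :
    -- genus zero: spheres with `m + 1` punctures, discs with `m + 1` punctures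
    (∀ m, 3 ≤ m → Threshold (Sph m) (lc (m + 1))) ∧
    (∀ m, 2 ≤ m → Threshold (Braid m) (lc (m + 1))) ∧
    -- at most three boundary components and `n` punctures
    (∀ (n : ℕ) (M : Type u) [Group M], 3 ≤ n → Planar n M →
      ∀ f : M →* Braid (n - 1), Function.Surjective f → Threshold M (lc n)) ∧
    (∀ (M : Type u) [Group M], Planar 2 M →
      ∀ f : M →* AB, Function.Surjective f → Threshold M 2) ∧
    -- at least four boundary components, or three and one puncture
    (∀ (M : Type u) [Group M] (f : M →* FreeGroup (Fin 2)), Function.Surjective f →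
      Threshold M 1) ∧
    -- the other planar surfaces with an infinite mapping class group
    (∀ (M : Type u) [Group M] [Infinite M], (∀ a b : M, a * b = b * a) →
      ∀ S : Set M, S.Finite → Subgroup.closure S = ⊤ → Threshold M 0) ∧
    -- genus one
    Threshold Tor 6 ∧
    (∀ (M : Type u) [Group M], Surface 2 M →
      ∀ f : M →* Tor, Function.Surjective f → Threshold M 6) ∧
    -- genus two
    Threshold Mod2 60 ∧
    (∀ (M : Type u) [Group M], Surface 5 M →
      ∀ f : M →* Mod2, Function.Surjective f → Threshold M 60) ∧
    -- exact indices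
    (∀ m N, 4 ≤ m → ¬ lc (m + 1) ∣ N → (powSub (Braid m) N).index = N ∧
      (powSub (Sph m) N).index = Nat.gcd N (m * Nat.gcd 2 (m + 1))) ∧
    (∀ N, ¬ 60 ∣ N → (powSub Mod2 N).index = Nat.gcd N 10) :=
  ⟨thr_sph, thr_braid, fun _ _ _ hn T f hf => thr_planar hn T f hf,
    fun _ _ T f hf => thr_planar_two T f hf, fun _ _ f hf => thr_free f hf,
    fun _ _ _ hA S hS hS' => thr_comm hA S hS hS', thr_tor, fun _ _ T f hf => thr_one T f hf,
    thr_mod2, fun _ _ T f hf => thr_two T f hf,
    fun _ _ hm h => ⟨index_braid hm h, index_sph hm h⟩, fun _ h => index_mod2 h⟩
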