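import Pool.Agent.PowQ.Sharp

/-! # MP_f12281_al: power subgroups of mapping class groups, surfaces of genus at least three

For pure mapping class groups (any punctures and boundary components): a prime power `q` divides
every `N` for which the `N`-th powers do not generate the group if and only if `φ q < 2 g`, or
`φ q = 2 g` and `q` is odd. -/

set_option autoImplicit false

open Pool.Agent.PowQ

universe u

theorem Pool.Agent.Results.MP_f12281_al.HighGenus.result (g : ℕ) (hg : 3 ≤ g)
    (M : Type u) [Group M] (T : SurfaceG g M) :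
    -- any punctures and boundary components: infinite index
    (∀ N, (powSub M N).index = 0 → ∀ q, IsPrimePow q →
      (Nat.totient q < 2 * g ∨ Nat.totient q = 2 * g ∧ Odd q) → q ∣ N) ∧
    -- pure mapping class group
    (Subgroup.closure T.tw = ⊤ → commutator M = ⊤ →
      (∀ l : ℕ, [Fact l.Prime] →
        ∃ ρ : M →* Matrix.symplecticGroup (Fin g) (ZMod l), ρ ≠ 1) →
      (∀ q, IsPrimePow q → ((∀ N, powSub M N ≠ ⊤ → q ∣ N) ↔
        (Nat.totient q < 2 * g ∨ Nat.totient q = 2 * g ∧ Odd q))) ∧
      (g = 3 → ∀ N, powSub M N = ⊤ ↔ ¬ 2520 ∣ N)) := by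
  refine ⟨fun N h q hq hs => T.dvd hg N h hq hs, fun hgen hp hρ =>
    ⟨fun q hq => T.sharp hg hgen hp hρ hq, ?_⟩⟩
  rintro rfl N
  exact T.three hgen hp (hρ 2) N
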